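import Pool.Agent.LibCollatzPairs.Proof

set_option autoImplicit false

namespace Pool.Agent.Results.MP_c516eb_nt.AlmostAllPaired

open Pool.Agent.LibCollatzPairs

/-- Outside a set of natural density zero, the Collatz trajectories of `n` and `n + 1` meet after
the same number of steps, before either reaches `1`; consequently the set of paired integers has the
same lower density as the set of all integers of finite height. -/
theorem result :
    Filter.Tendsto (fun N : ℕ => ({n : ℕ | 1 ≤ n ∧ n ≤ N ∧ ¬ Meets n (n + 1)}.ncard : ℝ) / N)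
      Filter.atTop (nhds 0) ∧
    Filter.liminf (fun N : ℕ => ({n : ℕ | 1 ≤ n ∧ n ≤ N ∧ Paired n}.ncard : ℝ) / N) Filter.atTop =
    Filter.liminf (fun N : ℕ => ({n : ℕ | 1 ≤ n ∧ n ≤ N ∧ FiniteHeight n}.ncard : ℝ) / N) Filter.atTop :=
  ⟨density_zero, liminf_eq⟩

end Pool.Agent.Results.MP_c516eb_nt.AlmostAllPaired
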